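import Mathlib

set_option autoImplicit false

namespace Pool.Agent.Results.MP_f8f7ac_co.Counter

/-- The real Euclidean plane. -/
abbrev Plane := EuclideanSpace ℝ (Fin 2)

/-- Straight lines of the plane. -/
def IsLine (S : Set Plane) : Prop :=
  ∃ a b c : ℝ, (a ≠ 0 ∨ b ≠ 0) ∧ S = {p | a * p 0 + b * p 1 = c}

/-- `I p l` says that point `p` is incident with line `l`; the `(n_3)` axioms. -/
def IsConfig {n : ℕ} (I : Fin n → Fin n → Prop) : Prop :=
  (∀ p, {l | I p l}.ncard = 3) ∧ (∀ l, {p | I p l}.ncard = 3) ∧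
    ∀ p q l m, p ≠ q → I p l → I q l → I p m → I q m → l = m

/-- A pair of bijections (of points, of lines) preserving incidence in both directions. -/
def IsAut {n : ℕ} (I : Fin n → Fin n → Prop) (σ τ : Equiv.Perm (Fin n)) : Prop :=
  ∀ p l, I (σ p) (τ l) ↔ I p l

/-- A geometric realization: distinct points, distinct lines, exactly the given incidences. -/
def IsRealization {n : ℕ} (I : Fin n → Fin n → Prop) (P : Fin n → Plane)
    (L : Fin n → Set Plane) : Prop :=
  Function.Injective P ∧ Function.Injective L ∧ (∀ l, IsLine (L l)) ∧ ∀ p l, P p ∈ L l ↔ I p l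

/-- An isometry of the plane mapping the point set onto itself and the line set onto itself. -/
def IsSymmetry {n : ℕ} (P : Fin n → Plane) (L : Fin n → Set Plane) (φ : Plane → Plane) : Prop :=
  Isometry φ ∧ φ '' Set.range P = Set.range P ∧
    (fun S => φ '' S) '' Set.range L = Set.range L

def inc (p l : Fin 13) : Prop := p = l ∨ p = l + 1 ∨ p = l + 4

instance (p l : Fin 13) : Decidable (inc p l) := by unfold inc; infer_instance

def X : Fin 13 → ℤ := ![-1, -1, 2, -1, 0, 3, -1, 1, -6, 1, 1, 83, 21]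
def Y : Fin 13 → ℤ := ![2, 0, 1, 19, 2, 1, -1, -9, -4, 0, -1, -51, -8]
def Z : Fin 13 → ℤ := ![3, -2, 2, 38, 5, 4, -2, -13, -13, 1, -1, 13, 7]
def A : Fin 13 → ℤ := ![4, -2, 0, 19, 1, -1, -1, -65, -4, 1, -2, 23, 19]
def B : Fin 13 → ℤ := ![5, 2, -2, 5, 5, -1, -3, -91, -7, 2, -3, 28, 35]
def C : Fin 13 → ℤ := ![-2, 1, 1, -2, -2, 1, 2, 58, 4, -1, 1, -37, -17]

lemma tab : ∀ p l : Fin 13, A l * X p + B l * Y p + C l * Z p = 0 ↔ inc p l := by decide +kernel
lemma tabZ : ∀ p : Fin 13, Z p ≠ 0 := by decide +kernel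
lemma tabAB : ∀ l : Fin 13, A l ≠ 0 ∨ B l ≠ 0 := by decide +kernel
lemma sepP : ∀ p q : Fin 13, (∀ l, inc p l ↔ inc q l) → p = q := by decide +kernel
lemma sepL : ∀ l m : Fin 13, (∀ p, inc p l ↔ inc p m) → l = m := by decide +kernel

lemma realizable : ∃ (P : Fin 13 → Plane) (L : Fin 13 → Set Plane), IsRealization inc P L := by
  let P : Fin 13 → Plane := fun p => !₂[(X p : ℝ) / Z p, (Y p : ℝ) / Z p]
  let L : Fin 13 → Set Plane := fun l => {x | (A l : ℝ) * x 0 + (B l : ℝ) * x 1 = -(C l : ℝ)}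
  have key : ∀ p l, P p ∈ L l ↔ inc p l := by
    intro p l
    rw [← tab]
    have hz : (Z p : ℝ) ≠ 0 := by exact_mod_cast tabZ p
    simp only [P, L, Set.mem_setOf_eq, PiLp.toLp_apply, Matrix.cons_val_zero, Matrix.cons_val_one]
    constructor
    · intro h
      field_simp at h
      have : (A l : ℝ) * X p + B l * Y p + C l * Z p = 0 := by linarith
      exact_mod_cast this
    · intro h
      have : (A l : ℝ) * X p + B l * Y p + C l * Z p = 0 := by exact_mod_cast h
      field_simp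
      linarith
  refine ⟨P, L, ?_, ?_, ?_, key⟩
  · intro p q h
    exact sepP p q fun l => by rw [← key, ← key, h]
  · intro l m h
    exact sepL l m fun p => by rw [← key, ← key, h]
  · intro l
    refine ⟨A l, B l, -(C l : ℝ), ?_, rfl⟩
    rcases tabAB l with h | h
    · left; exact_mod_cast h
    · right; exact_mod_cast h

def all13 (p : ℕ → Bool) : Bool := (List.range 13).all p
lemma all13_spec (p : ℕ → Bool) : all13 p = true ↔ ∀ a < 13, p a = true := by
  simp [all13]
def imp (c b : Bool) : Bool := if c then b else true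
lemma imp_spec (c b : Bool) : imp c b = true ↔ (c = true → b = true) := by
  cases c <;> simp [imp]
def T (a b c : ℕ) : Bool := Nat.testBit 1374614725971566755326995514421633839386105691226331710560308672419625312485954924497041735976864152730870444690677857643722604712773867822385673674842003492571672869572445648861472929944119695257847947856112321389104217849687256106093300836875894642421003045240287884457949794392267553442706254346860495372654751409470705711155663088314434869897841967337283060166313133300560756668522730956901430188892105071373160367153918033994332023878321351032193151497579634575134148204384826721513091680653852504606247601096431293171177544663240285905714529200340300580476613201420243594127176710046412971223894237952767698280888430046621094348041254210232953995264 (a * 169 + b * 13 + c)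
lemma T_of : ∀ a b c m : Fin 13, inc a m → inc b m → inc c m → a ≠ b → a ≠ c → b ≠ c →
    T a b c = true := by decide +kernel
def it (s : List ℕ) : ℕ → ℕ → ℕ
  | 0, u => u
  | k + 1, u => s.getD (it s k u) 0
def orb (s : List ℕ) (u v : ℕ) : Bool := (List.range 13).any fun k => it s k u == v
def fin (s : List ℕ) : Bool :=
  !(decide s.Nodup) || s == List.range 13 ||
    (List.range 13).any fun l => orb s l ((l + 1) % 13) && orb s l ((l + 4) % 13)

lemma search : (all13 fun s0 => all13 fun s1 => all13 fun s4 => imp (T s0 s1 s4) <| 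
    all13 fun s2 => all13 fun s5 => imp (T s1 s2 s5) <| 
    all13 fun s8 => imp (T s4 s5 s8) <| 
    all13 fun s9 => all13 fun s12 => imp (T s8 s9 s12) <| 
    all13 fun s6 => imp (T s5 s6 s9) <| 
    all13 fun s3 => imp (T s2 s3 s6) <| imp (T s12 s0 s3) <| 
    all13 fun s7 => imp (T s3 s4 s7) <| 
    all13 fun s10 => imp (T s6 s7 s10) <| imp (T s9 s10 s0) <| 
    all13 fun s11 => imp (T s7 s8 s11) <| imp (T s10 s11 s1) <| imp (T s11 s12 s2) <| 
    fin [s0, s1, s2, s3, s4, s5, s6, s7, s8, s9, s10, s11, s12]) = true := by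
  decide +kernel

lemma classify (σ : Fin 13 → Fin 13) (hi : Function.Injective σ)
    (h : ∀ l, ∃ m, ∀ p, inc p l → inc (σ p) m) :
    (∀ p, σ p = p) ∨ ∃ (l : Fin 13) (i j : ℕ), σ^[i] l = l + 1 ∧ σ^[j] l = l + 4 := by
  have hT : ∀ l : Fin 13, T (σ l) (σ (l + 1)) (σ (l + 4)) = true := by
    intro l
    obtain ⟨m, hm⟩ := h l
    have d : ∀ l : Fin 13, l ≠ l + 1 ∧ l ≠ l + 4 ∧ l + 1 ≠ l + 4 := by decide
    exact T_of _ _ _ m (hm _ (Or.inl rfl)) (hm _ (Or.inr (Or.inl rfl))) (hm _ (Or.inr (Or.inr rfl)))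
      (hi.ne (d l).1) (hi.ne (d l).2.1) (hi.ne (d l).2.2)
  have s := search
  simp only [all13_spec, imp_spec] at s
  have t := s (σ 0) (σ 0).2 (σ 1) (σ 1).2 (σ 4) (σ 4).2 (hT 0) (σ 2) (σ 2).2 (σ 5) (σ 5).2 (hT 1) (σ 8) (σ 8).2 (hT 4) (σ 9) (σ 9).2 (σ 12) (σ 12).2 (hT 8) (σ 6) (σ 6).2 (hT 5) (σ 3) (σ 3).2 (hT 2) (hT 12) (σ 7) (σ 7).2 (hT 3) (σ 10) (σ 10).2 (hT 6) (hT 9) (σ 11) (σ 11).2 (hT 7) (hT 10) (hT 11)
  have e : [(σ 0 : ℕ), σ 1, σ 2, σ 3, σ 4, σ 5, σ 6, σ 7, σ 8, σ 9, σ 10, σ 11, σ 12] =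
      List.ofFn fun i => (σ i : ℕ) := by simp [List.ofFn_succ]
  rw [e] at t
  have hit : ∀ k (u : Fin 13), it (List.ofFn fun i => (σ i : ℕ)) k u = (σ^[k] u : Fin 13) := by
    intro k u
    induction k with
    | zero => rfl
    | succ k ih =>
      rw [it, ih, Function.iterate_succ_apply', List.getD_eq_getElem _ _ (by simp)]
      simp only [List.getElem_ofFn]
  simp only [fin, Bool.or_eq_true, Bool.not_eq_true', decide_eq_false_iff_not, beq_iff_eq,
    List.any_eq_true, Bool.and_eq_true, orb, List.mem_range] at t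
  rcases t with (t | t) | ⟨l, hl, ⟨i, -, h1⟩, ⟨j, -, h2⟩⟩
  · exact absurd (List.nodup_ofFn.2 (Fin.val_injective.comp hi)) t
  · left
    intro p
    have := congrArg (fun s => s.getD p 0) t
    simp only [List.getD_eq_getElem _ _ (show (p : ℕ) < (List.ofFn fun i => (σ i : ℕ)).length by simp),
      List.getD_eq_getElem _ _ (show (p : ℕ) < (List.range 13).length by simp), List.getElem_ofFn,
      List.getElem_range] at this
    exact Fin.ext this
  · right
    refine ⟨⟨l, hl⟩, i, j, Fin.ext ?_, Fin.ext ?_⟩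
    · rw [← hit i ⟨l, hl⟩]; exact h1
    · rw [← hit j ⟨l, hl⟩]; exact h2

lemma dsq (x y : Plane) : dist x y ^ 2 = (x 0 - y 0) ^ 2 + (x 1 - y 1) ^ 2 := by
  rw [EuclideanSpace.dist_eq, Real.sq_sqrt (by positivity)]
  simp [Fin.sum_univ_two, Real.dist_eq, sq_abs]

lemma ext2 {x y : Plane} (h0 : x 0 = y 0) (h1 : x 1 = y 1) : x = y := by
  ext i; fin_cases i <;> simpa

/-- three distinct points of a line are not on a common level set of a convex quadratic -/
lemma three (a b c s t : ℝ) (hab : a ≠ 0 ∨ b ≠ 0) (u v w : Plane)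
    (hu : a * u 0 + b * u 1 = c) (hv : a * v 0 + b * v 1 = c) (hw : a * w 0 + b * w 1 = c)
    (h1 : u 0 ^ 2 + u 1 ^ 2 + s * u 0 + t * u 1 = v 0 ^ 2 + v 1 ^ 2 + s * v 0 + t * v 1)
    (h2 : u 0 ^ 2 + u 1 ^ 2 + s * u 0 + t * u 1 = w 0 ^ 2 + w 1 ^ 2 + s * w 0 + t * w 1) :
    u = v ∨ u = w ∨ v = w := by
  have hn : a ^ 2 + b ^ 2 ≠ 0 := by
    rcases hab with h | h <;> positivity
  obtain ⟨k, hk0, hk1⟩ : ∃ k : ℝ, v 0 = u 0 - k * b ∧ v 1 = u 1 + k * a := by
    refine ⟨(a * (v 1 - u 1) - b * (v 0 - u 0)) / (a ^ 2 + b ^ 2), ?_, ?_⟩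
    · field_simp; linear_combination a * hv - a * hu
    · field_simp; linear_combination b * hv - b * hu
  obtain ⟨m, hm0, hm1⟩ : ∃ k : ℝ, w 0 = u 0 - k * b ∧ w 1 = u 1 + k * a := by
    refine ⟨(a * (w 1 - u 1) - b * (w 0 - u 0)) / (a ^ 2 + b ^ 2), ?_, ?_⟩
    · field_simp; linear_combination a * hw - a * hu
    · field_simp; linear_combination b * hw - b * hu
  rw [hk0, hk1] at h1
  rw [hm0, hm1] at h2
  have : k * m * (k - m) * (a ^ 2 + b ^ 2) = 0 := by linear_combination k * h2 - m * h1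
  rcases mul_eq_zero.1 this with h | h
  · rcases mul_eq_zero.1 h with h | h
    · rcases mul_eq_zero.1 h with h | h
      · left; apply ext2 <;> simp [hk0, hk1, h]
      · right; left; apply ext2 <;> simp [hm0, hm1, h]
    · right; right
      have : k = m := by linarith
      apply ext2 <;> simp [hk0, hk1, hm0, hm1, this]
  · exact absurd h hn

lemma rigid (P : Fin 13 → Plane) (L : Fin 13 → Set Plane) (h : IsRealization inc P L)
    (φ : Plane → Plane) (hφ : IsSymmetry P L φ) : φ = id := by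
  obtain ⟨hP, -, hL, hI⟩ := h
  obtain ⟨iso, h1, h2⟩ := hφ
  have e1 : ∀ p, ∃ q, P q = φ (P p) := fun p => by
    have : φ (P p) ∈ Set.range P := h1 ▸ Set.mem_image_of_mem φ ⟨p, rfl⟩
    exact this
  have e2 : ∀ l, ∃ m, L m = φ '' L l := fun l => by
    have : φ '' L l ∈ Set.range L := h2 ▸ Set.mem_image_of_mem (fun S => φ '' S) ⟨l, rfl⟩
    exact this
  choose σ hσ using e1
  have hi : Function.Injective σ := fun p q e =>
    hP (iso.injective (by rw [← hσ, ← hσ, e]))
  have hb : Function.Bijective σ := Finite.injective_iff_bijective.1 hi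
  rcases classify σ hi (fun l => by
    obtain ⟨m, hm⟩ := e2 l
    exact ⟨m, fun p hp => (hI _ _).1 (by rw [hm, hσ]; exact ⟨_, (hI _ _).2 hp, rfl⟩)⟩) with
    hfix | ⟨l, i, j, hi1, hj1⟩
  · funext x
    have d : ∀ p, dist (φ x) (P p) ^ 2 = dist x (P p) ^ 2 := fun p => by
      conv_lhs => rw [← hfix p, hσ, iso.dist_eq]
    obtain ⟨a, b, c, hab, hl⟩ := hL 0
    have m0 : P 0 ∈ L 0 := (hI _ _).2 (by decide)
    have m1 : P 1 ∈ L 0 := (hI _ _).2 (by decide)
    have m2 : P 2 ∉ L 0 := fun hh => absurd ((hI _ _).1 hh) (by decide)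
    have ne : P 0 ≠ P 1 := hP.ne (by decide)
    rw [hl] at m0 m1 m2
    simp only [Set.mem_setOf_eq] at m0 m1 m2
    have d0 := d 0
    have d1 := d 1
    have d2 := d 2
    simp only [dsq] at d0 d1 d2
    have det : (P 1 0 - P 0 0) * (P 2 1 - P 0 1) - (P 1 1 - P 0 1) * (P 2 0 - P 0 0) ≠ 0 := by
      intro hd
      apply ne
      have hc : a * P 2 0 + b * P 2 1 - c ≠ 0 := sub_ne_zero.2 m2
      apply ext2
      · have : (P 0 0 - P 1 0) * (a * P 2 0 + b * P 2 1 - c) = 0 := by
          linear_combination (-b) * hd + (P 0 0 - P 1 0) * m0 - (P 2 0 - P 0 0) * (m1 - m0)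
        exact sub_eq_zero.1 ((mul_eq_zero.1 this).resolve_right hc)
      · have : (P 0 1 - P 1 1) * (a * P 2 0 + b * P 2 1 - c) = 0 := by
          linear_combination a * hd + (P 0 1 - P 1 1) * m0 - (P 2 1 - P 0 1) * (m1 - m0)
        exact sub_eq_zero.1 ((mul_eq_zero.1 this).resolve_right hc)
    apply ext2
    · have : (φ x 0 - x 0) * ((P 1 0 - P 0 0) * (P 2 1 - P 0 1) -
          (P 1 1 - P 0 1) * (P 2 0 - P 0 0)) = 0 := by
        linear_combination ((P 2 1 - P 0 1) / 2) * (d0 - d1) - ((P 1 1 - P 0 1) / 2) * (d0 - d2)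
      exact sub_eq_zero.1 ((mul_eq_zero.1 this).resolve_right det)
    · have : (φ x 1 - x 1) * ((P 1 0 - P 0 0) * (P 2 1 - P 0 1) -
          (P 1 1 - P 0 1) * (P 2 0 - P 0 0)) = 0 := by
        linear_combination ((P 1 0 - P 0 0) / 2) * (d0 - d2) - ((P 2 0 - P 0 0) / 2) * (d0 - d1)
      exact sub_eq_zero.1 ((mul_eq_zero.1 this).resolve_right det)
  · exfalso
    let f : Fin 13 → ℝ := fun p => ∑ q, dist (P p) (P q) ^ 2
    have f1 : ∀ p, f (σ p) = f p := fun p => by
      simp only [f]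
      rw [← hb.sum_comp (fun q => dist (P (σ p)) (P q) ^ 2)]
      simp only [hσ, iso.dist_eq]
    have f2 : ∀ k p, f (σ^[k] p) = f p := fun k p => by
      induction k with
      | zero => rfl
      | succ k ih => rw [Function.iterate_succ_apply', f1, ih]
    have f3 : ∀ p, f p = 13 * (P p 0 ^ 2 + P p 1 ^ 2 + (-2 * (∑ q, P q 0) / 13) * P p 0 +
        (-2 * (∑ q, P q 1) / 13) * P p 1) + ∑ q, (P q 0 ^ 2 + P q 1 ^ 2) := fun p => by
      simp only [f, dsq, Fin.sum_univ_succ, Fin.sum_univ_zero]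
      ring
    obtain ⟨a, b, c, hab, hl⟩ := hL l
    have m0 : P l ∈ L l := (hI _ _).2 (Or.inl rfl)
    have m1 : P (l + 1) ∈ L l := (hI _ _).2 (Or.inr (Or.inl rfl))
    have m2 : P (l + 4) ∈ L l := (hI _ _).2 (Or.inr (Or.inr rfl))
    rw [hl] at m0 m1 m2
    have g1 := f2 i l
    have g2 := f2 j l
    rw [hi1, f3, f3] at g1
    rw [hj1, f3, f3] at g2
    have d : ∀ l : Fin 13, l ≠ l + 1 ∧ l ≠ l + 4 ∧ l + 1 ≠ l + 4 := by decide
    rcases three a b c (-2 * (∑ q, P q 0) / 13) (-2 * (∑ q, P q 1) / 13) hab _ _ _ m0 m1 m2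
      (by linarith) (by linarith) with e | e | e
    · exact (d l).1 (hP e)
    · exact (d l).2.1 (hP e)
    · exact (d l).2.2 (hP e)

def mul3 : Equiv.Perm (Fin 13) := ⟨fun x => 3 * x, fun x => 9 * x, by decide, by decide⟩
def g (k : Fin 3) (b : Fin 13) : Equiv.Perm (Fin 13) := Equiv.addRight b * mul3 ^ (k : ℕ)
def sh : Fin 3 → Fin 13 := ![0, 12, 9]
def gl (k : Fin 3) (b : Fin 13) : Equiv.Perm (Fin 13) := Equiv.addRight (b + sh k) * mul3 ^ (k : ℕ)

lemma aut : ∀ (k : Fin 3) (b p l : Fin 13), inc (g k b p) (gl k b l) ↔ inc p l := by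
  decide +kernel

lemma flag : ∀ p l q m : Fin 13, inc p l → inc q m →
    ∃ (k : Fin 3) (b : Fin 13), g k b p = q ∧ gl k b l = m := by
  decide +kernel

/-- There is a realizable `(13_3)` configuration whose automorphism group is transitive on points,
on lines and on flags, and every geometric realization of which has only the trivial symmetry. -/
theorem result : ∃ (n : ℕ) (I : Fin n → Fin n → Prop), 0 < n ∧ IsConfig I ∧
    (∀ p q, ∃ σ τ, IsAut I σ τ ∧ σ p = q) ∧
    (∀ l m, ∃ σ τ, IsAut I σ τ ∧ τ l = m) ∧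
    (∀ p l q m, I p l → I q m → ∃ σ τ, IsAut I σ τ ∧ σ p = q ∧ τ l = m) ∧
    (∃ P L, IsRealization I P L) ∧
    ∀ P L, IsRealization I P L → ∀ φ, IsSymmetry P L φ → φ = id := by
  have hf : ∀ p l q m, inc p l → inc q m → ∃ σ τ, IsAut inc σ τ ∧ σ p = q ∧ τ l = m := by
    intro p l q m h1 h2
    obtain ⟨k, b, e1, e2⟩ := flag p l q m h1 h2
    exact ⟨g k b, gl k b, aut k b, e1, e2⟩
  refine ⟨13, inc, by norm_num, ⟨?_, ?_, by decide +kernel⟩, ?_, ?_, hf, realizable, rigid⟩
  · intro p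
    have : {l | inc p l} = ((Finset.univ.filter fun l => inc p l : Finset (Fin 13)) : Set _) := by
      ext; simp
    rw [this, Set.ncard_coe_finset]
    clear this; revert p; decide +kernel
  · intro l
    have : {p | inc p l} = ((Finset.univ.filter fun p => inc p l : Finset (Fin 13)) : Set _) := by
      ext; simp
    rw [this, Set.ncard_coe_finset]
    clear this; revert l; decide +kernel
  · intro p q
    obtain ⟨σ, τ, h, e, -⟩ := hf p p q q (Or.inl rfl) (Or.inl rfl)
    exact ⟨σ, τ, h, e⟩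
  · intro l m
    obtain ⟨σ, τ, h, -, e⟩ := hf l l m m (Or.inl rfl) (Or.inl rfl)
    exact ⟨σ, τ, h, e⟩

end Pool.Agent.Results.MP_f8f7ac_co.Counter
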